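import Pool.Agent.H74.TQ.Stmts

/-!
# Two queries, module ITER: bounded iteration of functions computed with the oracle
-/

set_option autoImplicit false

namespace Pool.TQ

open TMLib Polynomial

namespace ITER

variable {α β : Type} [Enc α] [Enc β]

/-- guard against long values -/
def gd (H : ℕ) (b b' : β) : β := if sz b' ≤ H then b' else b

/-- the replay of the computation: one more answer -/
def F (O : β × List Bool → β) (H τ : ℕ) (s : β × List Bool) (bit : Bool) : β × List Bool :=
  if s.2.length + 1 = τ then (gd H s.1 (O (s.1, s.2 ++ [bit])), []) else (s.1, s.2 ++ [bit])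

/-- the replay of the computation -/
def rst (O : β × List Bool → β) (H τ : ℕ) (b₀ : β) (c : List Bool) : β × List Bool :=
  c.foldl (F O H τ) (b₀, [])

lemma gd_size (H : ℕ) (b b' : β) : sz (gd H b b') ≤ max H (sz b) := by
  unfold gd
  split_ifs with h
  · exact h.trans (le_max_left _ _)
  · exact le_max_right _ _

lemma rst_append (O : β × List Bool → β) (H τ : ℕ) (b₀ : β) (c : List Bool) (bit : Bool) :
    rst O H τ b₀ (c ++ [bit]) = F O H τ (rst O H τ b₀ c) bit := by
  simp [rst]

lemma rst_size (O : β × List Bool → β) {H τ : ℕ} (hτ : 1 ≤ τ) (b₀ : β) (c : List Bool) :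
    sz (rst O H τ b₀ c).1 ≤ H + sz b₀ ∧ (rst O H τ b₀ c).2.length < τ := by
  induction c using List.reverseRecOn with
  | nil =>
    simp only [rst, List.foldl_nil, List.length_nil]
    omega
  | append_singleton c bit ih =>
    rw [rst_append]
    unfold F
    split_ifs with h
    · have h1 := gd_size H (rst O H τ b₀ c).1
        (O ((rst O H τ b₀ c).1, (rst O H τ b₀ c).2 ++ [bit]))
      simp only [List.length_nil]
      refine ⟨h1.trans ?_, by omega⟩
      omega
    · simp only [List.length_append, List.length_singleton]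
      omega

/-- the transcript of the iteration -/
lemma run (Q : β × List Bool → Form) (O : β × List Bool → β) (P : ℕ[X]) (step : β → β)
    (hO : ∀ x N, P.eval (sz x) ≤ N → O (x, trans Q x N) = step x) (H τ : ℕ) (hτ : 1 ≤ τ) (b₀ : β)
    (hP : ∀ i, P.eval (sz ((fun b => gd H b (step b))^[i] b₀)) ≤ τ)
    {γ : Type} (p : γ) (Q' : γ × List Bool → Form)
    (hQ' : ∀ c, Q' (p, c) = Q (rst O H τ b₀ c)) (i : ℕ) :
    rst O H τ b₀ (trans Q' p (i * τ)) = ((fun b => gd H b (step b))^[i] b₀, []) := by
  induction i with
  | zero => simp [trans, rst]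
  | succ i ih =>
    set b := (fun b => gd H b (step b))^[i] b₀ with hb
    have key : ∀ k, k ≤ τ → (k < τ → rst O H τ b₀ (trans Q' p (i * τ + k)) = (b, trans Q b k)) ∧
        (k = τ → rst O H τ b₀ (trans Q' p (i * τ + k)) = (gd H b (step b), [])) := by
      intro k
      induction k with
      | zero =>
        intro _
        refine ⟨fun _ => ?_, fun h => by omega⟩
        rw [Nat.add_zero, ih]
        rfl
      | succ k ihk =>
        intro hk
        have h1 := (ihk (by omega)).1 (by omega)
        have h2 : trans Q' p (i * τ + (k + 1)) =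
            trans Q' p (i * τ + k) ++ [satb (Q (b, trans Q b k))] := by
          rw [← Nat.add_assoc, trans, hQ', h1]
        have h3 : trans Q b (k + 1) = trans Q b k ++ [satb (Q (b, trans Q b k))] := rfl
        rw [h2, rst_append, h1]
        constructor
        · intro hlt
          unfold F
          rw [if_neg (by rw [trans_length]; omega)]
          rfl
        · intro heq
          unfold F
          rw [if_pos (by rw [trans_length]; omega)]
          simp only
          rw [← h3, hO b (k + 1) (by rw [heq]; exact hP i)]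
    have h4 := (key τ le_rfl).2 rfl
    rw [Nat.succ_mul, h4, Function.iterate_succ_apply']

lemma iter_size (step : β → β) (H : ℕ) (b₀ : β) (i : ℕ) :
    sz ((fun b => gd H b (step b))^[i] b₀) ≤ H + sz b₀ := by
  induction i with
  | zero => simp
  | succ i ih =>
    rw [Function.iterate_succ_apply']
    refine (gd_size _ _ _).trans ?_
    omega

lemma ptime_rst {O : β × List Bool → β} (hO : PTime O) {H : α → ℕ} (hH : PTime H)
    {τ : α × β → ℕ} (hτ : PTime τ) (hτ1 : ∀ p, 1 ≤ τ p) :
    PTime (fun q : (α × β) × List Bool => rst O (H q.1.1) (τ q.1) q.1.2 q.2) := by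
  unfold rst
  have hH' : PTime (fun q : (α × β) × List Bool => H q.1.1) :=
    hH.comp (f := fun q : (α × β) × List Bool => q.1.1) (by fun_prop)
  have hτ' : PTime (fun q : (α × β) × List Bool => τ q.1) :=
    hτ.comp (f := fun q : (α × β) × List Bool => q.1) (by fun_prop)
  have hF : PTime (fun p : ((α × β) × List Bool) × (β × List Bool) × Bool =>
      F O (H p.1.1.1) (τ p.1.1) p.2.1 p.2.2) := by
    unfold F
    refine PTime.ite ?_ (PTime.pair ?_ (PTime.const [])) (by fun_prop)
    · exact PTime.natEq (by fun_prop)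
        (hτ'.comp (f := fun p : ((α × β) × List Bool) × (β × List Bool) × Bool => p.1)
          (by fun_prop))
    · unfold gd
      have e1 : PTime (fun p : ((α × β) × List Bool) × (β × List Bool) × Bool =>
          O (p.2.1.1, p.2.1.2 ++ [p.2.2])) :=
        hO.comp (f := fun p : ((α × β) × List Bool) × (β × List Bool) × Bool =>
          (p.2.1.1, p.2.1.2 ++ [p.2.2])) (by fun_prop)
      refine PTime.ite (PTime.le (PTime.sz' e1)
        (hH'.comp (f := fun p : ((α × β) × List Bool) × (β × List Bool) × Bool => p.1)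
          (by fun_prop))) e1 (by fun_prop)
  have hb : PB (fun q : (α × β) × List Bool =>
      1 + (sz (H q.1.1) + sz q.1.2) + (1 + sz (τ q.1) * 4)) := by
    have h1 : PTime (fun q : (α × β) × List Bool => q.1.2) := by fun_prop
    exact ((PB.const 1).add (hH'.pb.add h1.pb)).add ((PB.const 1).add (hτ'.pb.mul (PB.const 4)))
  refine PTime.foldl (f := fun (q : (α × β) × List Bool) (s : β × List Bool) (bit : Bool) =>
    F O (H q.1.1) (τ q.1) s bit) hF (by fun_prop) (by fun_prop) hb ?_
  intro q l' _
  have h1 := rst_size O (H := H q.1.1) (hτ1 q.1) q.1.2 l'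
  have h2 : sz (rst O (H q.1.1) (τ q.1) q.1.2 l').2 ≤ 1 + τ q.1 * 4 :=
    sz_list_le _ _ 3 h1.2.le (fun b _ => sz_bool_le b)
  have h3 : sz (rst O (H q.1.1) (τ q.1) q.1.2 l') =
      1 + sz (rst O (H q.1.1) (τ q.1) q.1.2 l').1 + sz (rst O (H q.1.1) (τ q.1) q.1.2 l').2 := by
    rw [sz_pair]
  have h4 : sz (l'.foldl (fun s bit => F O (H q.1.1) (τ q.1) s bit) (q.1.2, [])) =
      sz (rst O (H q.1.1) (τ q.1) q.1.2 l') := rfl
  rw [h4, h3]
  simp only [sz_nat]
  have h5 := h1.1
  omega

/-- iteration with a guard is computable with the oracle -/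
lemma main {step : β → β} (hs : FPNP step) {n H : α → ℕ} (hn : PTime n) (hH : PTime H) :
    FPNP (fun p : α × β => (fun b => gd (H p.1) b (step b))^[n p.1] p.2) := by
  obtain ⟨Q, O, P, hQ, hO, h⟩ := hs
  set τ : α × β → ℕ := fun p => P.eval (H p.1 + sz p.2) + 1 with hτd
  have hτ : PTime τ := by
    have h1 : PTime (fun p : α × β => H p.1) :=
      hH.comp (f := fun p : α × β => p.1) (by fun_prop)
    exact PTime.add (PTime.polyEval P (PTime.add h1 (by fun_prop))) (PTime.const 1)
  have hτ1 : ∀ p, 1 ≤ τ p := fun p => by simp only [hτd]; omega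
  have hr := ptime_rst hO hH hτ hτ1
  have hn' : PTime (fun p : α × β => n p.1) :=
    hn.comp (f := fun p : α × β => p.1) (by fun_prop)
  have hN : PTime (fun p : α × β => n p.1 * τ p) := PTime.mul hn' hτ
  obtain ⟨B, hB⟩ := hN.exists_size_le
  refine ⟨fun q => Q (rst O (H q.1.1) (τ q.1) q.1.2 q.2),
    fun q => (rst O (H q.1.1) (τ q.1) q.1.2 (q.2.take (n q.1.1 * τ q.1))).1, B,
    hQ.comp hr, ?_, ?_⟩
  · have h1 : PTime (fun q : (α × β) × List Bool => q.2.take (n q.1.1 * τ q.1)) :=
      PTime.take (hN.comp (f := fun q : (α × β) × List Bool => q.1) (by fun_prop)) (by fun_prop)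
    have h2 : PTime (fun q : (α × β) × List Bool => (q.1, q.2.take (n q.1.1 * τ q.1))) :=
      PTime.pair (by fun_prop) h1
    exact PTime.fst (hr.comp h2)
  · intro p N hN'
    have h1 : n p.1 * τ p ≤ N := by
      have := hB p
      simp only [sz_nat] at this
      omega
    simp only
    rw [trans_take _ _ h1]
    rw [run Q O P step h (H p.1) (τ p) (hτ1 p) p.2 (fun i => ?_) p
      (fun q => Q (rst O (H q.1.1) (τ q.1) q.1.2 q.2)) (fun c => rfl) (n p.1)]
    have h2 := eval_mono P (iter_size step (H p.1) p.2 i)
    simp only [hτd]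
    omega

end ITER

theorem iter (h : S_BIND) : S_ITER := by
  intro α β _ _ step s n hb hstep hs hn hpb hsz
  obtain ⟨Bp, hBp⟩ := hpb
  have hH : PTime (fun x : α => Bp.eval (sz x)) := PTime.polyEval Bp (by fun_prop)
  have hm := ITER.main (β := β) hstep hn hH
  have := h hs hm
  refine this.congr fun x => ?_
  have key : ∀ i, i ≤ n x →
      (fun b => ITER.gd (Bp.eval (sz x)) b (step b))^[i] (s x) = step^[i] (s x) := by
    intro i
    induction i with
    | zero => intro _; rfl
    | succ i ih =>
      intro hi
      rw [Function.iterate_succ_apply', ih (by omega), Function.iterate_succ_apply']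
      have h1 := hsz x (i + 1) hi
      rw [Function.iterate_succ_apply'] at h1
      unfold ITER.gd
      rw [if_pos (h1.trans (hBp x))]
  exact (key (n x) le_rfl).symm

end Pool.TQ
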