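import Pool.Agent.H74.TQ.Stmts

/-!
# Two queries, module SEARCH: search problems for NP relations
-/

set_option autoImplicit false

namespace Pool.TQ

open TMLib Polynomial

theorem search (h1 : S_LEXF) (h2 : S_LEXM) : S_SEARCH := by
  intro K α β _ _ _ _ R q hR hq
  classical
  let S : α → List Bool → Prop := fun x l =>
    sz (TMLib.Fix.fix (parse l) : β) ≤ q x ∧ R x (TMLib.Fix.fix (parse l))
  have hS : NPp (fun p : α × List Bool => S p.1 p.2) := by
    refine NPp.and ?_ ?_
    · refine NPp.of_ptime ?_
      have e1 : PTime fun p : α × List Bool => sz (TMLib.Fix.fix (parse p.2) : β) := by fun_prop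
      exact PTime.le e1 (hq.comp (PTime.fst PTime.id))
    · exact hR.comp (g := fun p : α × List Bool => (p.1, (TMLib.Fix.fix (parse p.2) : β)))
        (by fun_prop)
  have hL : FPNP (fun x => lexmin (S x) (q x)) := h1 K hS hq
  have hP : FPNP (fun x => (x, lexmin (S x) (q x))) := K.pair (FPNP.of_ptime PTime.id) hL
  have hD : FPNP (fun x => decide (S x (lexmin (S x) (q x)))) := by
    have h3 : FPNP (fun p : α × List Bool => decide (S p.1 p.2)) := K.npp hS
    exact K.comp h3 hP
  refine ⟨fun x => if S x (lexmin (S x) (q x)) then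
    some (TMLib.Fix.fix (parse (lexmin (S x) (q x)))) else none, ?_, ?_, ?_⟩
  · refine K.ite hD ?_ (FPNP.const none)
    exact K.pcomp (g := fun l : List Bool => some (TMLib.Fix.fix (parse l) : β)) (by fun_prop) hL
  · intro x b hb
    by_cases h : S x (lexmin (S x) (q x))
    · simp only [if_pos h] at hb
      obtain rfl := Option.some.inj hb
      exact h
    · simp only [if_neg h] at hb
      exact absurd hb (by simp)
  · intro x hx b hb hRb
    obtain ⟨l, hl, hlb⟩ := exists_bits b (q x) hb
    have hSl : S x l := by
      refine ⟨?_, ?_⟩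
      · rw [hlb]; exact hb
      · rw [hlb]; exact hRb
    have h3 := ((h2 (S x) (q x)).2 l hl hSl).1
    simp only [if_pos h3] at hx
    exact absurd hx (by simp)

end Pool.TQ
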